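import Pool.Agent.E8helper80.AX.B1
import Pool.Agent.E8helper80.AX.DefsG
import Pool.Agent.E8helper57.AX.Fac

/-! # AX piece B3H: the apex coefficient vanishes, the next interval. -/

set_option autoImplicit false

namespace Pool.Agent.E8helper79.AX.B3H

open Finset Pool.Agent.TH176.Nag Polynomial
open Pool.Agent.E8helper80.AX
open Pool.Agent.E8helper57.AX (factor)

lemma bounds {M : ℕ} (hM : 1 ≤ M) :
    (M : ℝ) + 1 / 4 < KG M ∧ KG M < M + 1 / 2 ∧ M * (2 * M + 1 - 2 * KG M) < 1 / 2 ∧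
      M * (2 * M + 1 - 2 * KG M) < KG M - M ∧ KG M - M < (M + 1) * (2 * M + 1 - 2 * KG M) ∧
      1 / 3 < KG M - M ∧ M + 1 < (KG M - M) * (2 * M + 4) := by
  have hMr : (1 : ℝ) ≤ M := by exact_mod_cast hM
  obtain ⟨s, hs⟩ : ∃ s : ℝ, s = √((M * M + 2 * M : ℕ) : ℝ) := ⟨_, rfl⟩
  have h2 : ((M * M + 2 * M : ℕ) : ℝ) = (M : ℝ) * M + 2 * M := by push_cast; ring
  have hK : 2 * KG M = M + s := by rw [hs]; unfold KG; ring
  have hs0 : 0 ≤ s := by rw [hs]; exact Real.sqrt_nonneg _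
  have hs2 : s ^ 2 = (M : ℝ) * M + 2 * M := by
    rw [hs, ← h2]
    exact Real.sq_sqrt (Nat.cast_nonneg _)
  obtain ⟨x, hx⟩ : ∃ x : ℝ, x = (M : ℝ) := ⟨_, rfl⟩
  rw [← hx] at hMr hs2 hK ⊢
  have l1 : x + 1 / 2 < s := by
    refine lt_of_pow_lt_pow_left₀ 2 hs0 ?_
    rw [hs2]; nlinarith
  have l2 : s < x + 1 := by
    refine lt_of_pow_lt_pow_left₀ 2 (by linarith) ?_
    rw [hs2]; nlinarith
  have l3 : 2 * x * x + 2 * x - 1 < s * (2 * x) := by
    refine lt_of_pow_lt_pow_left₀ 2 (mul_nonneg hs0 (by linarith)) ?_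
    rw [mul_pow, hs2]
    nlinarith
  have l4 : x * (2 * x + 3) < s * (2 * x + 1) := by
    refine lt_of_pow_lt_pow_left₀ 2 (mul_nonneg hs0 (by linarith)) ?_
    rw [mul_pow, mul_pow, hs2]
    nlinarith
  have l5 : x * (2 * x + 1 - 2 * KG M) = x * (x + 1 - s) := by
    linear_combination (-x) * hK
  have l6 : (x + 1) * (2 * x + 1 - 2 * KG M) = (x + 1) * (x + 1 - s) := by
    linear_combination (-(x + 1)) * hK
  have l7 : s * (2 * x + 3) < (2 * x + 1) * (x + 2) := by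
    refine lt_of_pow_lt_pow_left₀ 2 (mul_nonneg (by linarith) (by linarith)) ?_
    rw [mul_pow, mul_pow, hs2]
    nlinarith
  have l8 : x + 2 / 3 < s := by
    refine lt_of_pow_lt_pow_left₀ 2 hs0 ?_
    rw [hs2]; nlinarith
  have l9 : x * x + 3 * x + 1 < s * (x + 2) := by
    refine lt_of_pow_lt_pow_left₀ 2 (mul_nonneg hs0 (by linarith)) ?_
    rw [mul_pow, hs2]
    nlinarith
  have l10 : (KG M - x) * (2 * x + 4) = (s - x) * (x + 2) := by
    linear_combination (x + 2) * hK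
  rw [l5, l6, l10]
  refine ⟨by linarith, by linarith, by nlinarith, by nlinarith, by nlinarith, by linarith,
    by nlinarith⟩

lemma wc_zero {f : (ℤ × ℤ) →₀ ℚ} {t : ℤ} {k : ℕ}
    (H : ∀ p ∈ f.support, p.1 = t → p.2.toNat < k) : wc f t k = 0 := by
  unfold wc
  refine Finset.sum_eq_zero fun p hp => ?_
  beta_reduce
  split_ifs with h
  · rw [Nat.choose_eq_zero_of_lt (H p hp h)]
    simp
  · rfl

section
variable {M h m : ℕ} {f : (ℤ × ℤ) →₀ ℚ}

/-- facts on the support -/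
lemma supp (hM : 1 ≤ M) (hf : (↑f.support : Set (ℤ × ℤ)) ⊆ ABG M h) {p : ℤ × ℤ} (hp : p ∈ f.support) :
    0 ≤ p.2 ∧ 0 ≤ p.1 ∧ p.2 ≤ h ∧ (KG M - M) * ((h : ℝ) - p.2) ≤ p.1 ∧
      (p.1 : ℝ) ≤ KG M * ((h : ℝ) - p.2) := by
  obtain ⟨h1, h2, h3⟩ := hf (Finset.mem_coe.2 hp)
  obtain ⟨k1, k2, -, -, -, -, -⟩ := bounds hM
  have hMr : (1 : ℝ) ≤ M := by exact_mod_cast hM
  have h4 : (0 : ℝ) ≤ (h : ℝ) - p.2 := by
    by_contra hc
    push Not at hc
    have := mul_neg_of_pos_of_neg (show (0 : ℝ) < M by linarith) hc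
    linarith
  refine ⟨h1, ?_, ?_, h2, h3⟩
  · have : (0 : ℝ) ≤ (p.1 : ℝ) := le_trans (mul_nonneg (by linarith) h4) h2
    exact_mod_cast this
  · have : (p.2 : ℝ) ≤ (h : ℝ) := by linarith
    exact_mod_cast this

variable
  (Hph : ∀ (f : (ℤ × ℤ) →₀ ℚ) (c : ℤ) (k : ℕ), (ph f c).coeff k = wc f (c + k) k)
  (Htay : ∀ (f : (ℤ × ℤ) →₀ ℚ) (c : ℤ) (b : ℕ), (taylor 1 (ph f c)).coeff b = tc f c b)
  (Hct : ∀ (f : (ℤ × ℤ) →₀ ℚ) (t : ℤ) (k : ℕ), (taylor 1 (colp f t)).coeff k = wc f t k)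
  (Hcc : ∀ (f : (ℤ × ℤ) →₀ ℚ), (∀ p ∈ f.support, 0 ≤ p.2) → ∀ (t : ℤ) (j : ℕ),
    (colp f t).coeff j = f (t, (j : ℤ)))

include Hph in
lemma ph_high (hM : 1 ≤ M) (hf : (↑f.support : Set (ℤ × ℤ)) ⊆ ABG M h) {c : ℤ} {k : ℕ}
    (hk : KG M * h < c + (KG M + 1) * k) : (ph f c).coeff k = 0 := by
  rw [Hph]
  apply wc_zero
  intro p hp hpt
  obtain ⟨h1, -, -, -, h5⟩ := supp hM hf hp
  by_contra hc
  push Not at hc
  have h6 : (k : ℤ) ≤ p.2 := by omega
  have h7 : (k : ℝ) ≤ (p.2 : ℝ) := by exact_mod_cast h6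
  have h8 : (p.1 : ℝ) = c + k := by rw [hpt]; push_cast; ring
  obtain ⟨k1, k2, -, -, -, -, -⟩ := bounds hM
  have hMr : (1 : ℝ) ≤ M := by exact_mod_cast hM
  rw [h8] at h5
  have h9 := mul_le_mul_of_nonneg_left h7 (show 0 ≤ KG M by linarith)
  linarith

include Hph in
lemma ph_low (hM : 1 ≤ M) (hf : (↑f.support : Set (ℤ × ℤ)) ⊆ ABG M h) {c : ℤ} {k : ℕ}
    (hk : c + k < 0) : (ph f c).coeff k = 0 := by
  rw [Hph]
  apply wc_zero
  intro p hp hpt
  obtain ⟨-, h2, -⟩ := supp hM hf hp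
  omega

variable (hM : 1 ≤ M) (hd0 : 0 ≤ KG M * h - (KG M + 1) * m)
    (hd1 : KG M * h - (KG M + 1) * m < 1 / 2)
    (hf : (↑f.support : Set (ℤ × ℤ)) ⊆ ABG M h)
    (hH : ∀ b < m, ∀ c : ℤ, ⌊KG M * h - (KG M + 1) * (b : ℝ)⌋ < c + ((M : ℤ) + 2) * ((m : ℤ) - b) →
      tc f c b = 0)

include hH in
lemma tc_zero {b : ℕ} (hb : b < m) {c : ℤ}
    (hc : KG M * h - (KG M + 1) * m < c + (M + 1 - KG M) * ((m : ℝ) - b)) : tc f c b = 0 := by
  refine hH b hb c ?_
  rw [Int.floor_lt]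
  push_cast
  linarith

include Hph Htay hM hd1 hf hH in
lemma ph_zero {c : ℤ} (hc : 0 < c) : ph f c = 0 := by
  obtain ⟨k1, k2, -, -, -, -, -⟩ := bounds hM
  have hMr : (1 : ℝ) ≤ M := by exact_mod_cast hM
  have hc' : (1 : ℝ) ≤ c := by exact_mod_cast hc
  apply taylor_injective 1
  rw [map_zero]
  ext b
  rw [coeff_zero]
  by_cases hb : b < m
  · rw [Htay]
    refine tc_zero hH hb ?_
    have hb' : (b : ℝ) < m := by exact_mod_cast hb
    have : 0 ≤ (M + 1 - KG M) * ((m : ℝ) - b) := mul_nonneg (by linarith) (by linarith)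
    linarith
  · push Not at hb
    have hdeg : (ph f c).degree < (m : ℕ) := by
      rw [degree_lt_iff_coeff_zero]
      intro k hk
      apply ph_high Hph hM hf
      have hk' : (m : ℝ) ≤ k := by exact_mod_cast hk
      have := mul_le_mul_of_nonneg_left hk' (show 0 ≤ KG M + 1 by linarith)
      linarith
    apply coeff_eq_zero_of_degree_lt
    rw [degree_taylor]
    exact hdeg.trans_le (by exact_mod_cast hb)

include Hph Htay hM hd1 hf hH in
lemma wc_low {t : ℤ} {k : ℕ} (hk : (k : ℤ) < t) : wc f t k = 0 := by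
  have h1 := ph_zero Hph Htay hM hd1 hf hH (c := t - k) (by omega)
  have h2 := Hph f (t - k) k
  rw [h1, coeff_zero, sub_add_cancel] at h2
  exact h2.symm

include Hph hM hf in
lemma ph_deg (hd2 : KG M * h - (KG M + 1) * m < KG M - M) {i : ℕ} (hi : i ≤ M + 1) :
    (ph f (-(i : ℤ))).natDegree ≤ m := by
  obtain ⟨k1, k2, -, -, -, -, -⟩ := bounds hM
  have hMr : (1 : ℝ) ≤ M := by exact_mod_cast hM
  rw [natDegree_le_iff_coeff_eq_zero]
  intro k hk
  apply ph_high Hph hM hf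
  have hk' : (m : ℝ) + 1 ≤ k := by exact_mod_cast hk
  have hi' : (i : ℝ) ≤ M + 1 := by exact_mod_cast hi
  have := mul_le_mul_of_nonneg_left hk' (show 0 ≤ KG M + 1 by linarith)
  push_cast
  linarith

include Hph Htay hM hf hH in
lemma row (hd2 : KG M * h - (KG M + 1) * m < KG M - M) {N : ℕ} (hN : N ≤ M + 1) (hN1 : 1 ≤ N)
    (hdN : KG M * h - (KG M + 1) * m < N * (2 * M + 1 - 2 * KG M)) (hm : 2 * M + 2 ≤ m) {i : ℕ}
    (hi : i ≤ N) :
    ∃ r : Polynomial ℚ, r.natDegree ≤ i ∧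
      (∀ t ≤ N, wc f (t : ℤ) (t + i) = ((1 - X) ^ (m - 2 * i) * r).coeff t) ∧
      (i = N → r.eval 1 = 0) := by
  obtain ⟨k1, k2, -, -, -, -, -⟩ := bounds hM
  have hMr : (1 : ℝ) ≤ M := by exact_mod_cast hM
  have hcoef : ∀ (Q : ℚ[X]), ph f (-(i : ℤ)) = X ^ i * Q → ∀ t : ℕ,
      wc f (t : ℤ) (t + i) = Q.coeff t := by
    intro Q hQ t
    have h1 := Hph f (-(i : ℤ)) (t + i)
    rw [hQ, coeff_X_pow_mul] at h1
    rw [h1]
    congr 1
    push_cast
    ring
  have hlow : ∀ k < i, (ph f (-(i : ℤ))).coeff k = 0 := fun k hk =>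
    ph_low Hph hM hf (by omega)
  have hi9 : i ≤ M + 1 := hi.trans hN
  have hdeg := ph_deg Hph hM hf hd2 hi9
  by_cases hiN : i = N
  · have htay : ∀ b < m - 2 * N + 1, (taylor 1 (ph f (-(i : ℤ)))).coeff b = 0 := by
      intro b hb
      rw [Htay]
      refine tc_zero hH (by omega) ?_
      have hb2 : b + 2 * N ≤ m := by omega
      have hb' : (2 : ℝ) * N ≤ (m : ℝ) - b := by
        have : ((b + 2 * N : ℕ) : ℝ) ≤ (m : ℝ) := by exact_mod_cast hb2
        push_cast at this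
        linarith
      have h5 := mul_le_mul_of_nonneg_left hb' (show (0 : ℝ) ≤ M + 1 - KG M by linarith)
      rw [hiN]
      push_cast
      linarith
    obtain ⟨q, hq, hqd⟩ := factor hlow htay hdeg
    refine ⟨(1 - X) * q, ?_, ?_, ?_⟩
    · refine (natDegree_mul_le).trans ?_
      have : (1 - X : ℚ[X]).natDegree ≤ 1 := by
        refine (natDegree_sub_le _ _).trans ?_
        simp
      omega
    · intro t _
      have e : (1 - X : ℚ[X]) ^ (m - 2 * N + 1) * q = (1 - X) ^ (m - 2 * i) * ((1 - X) * q) := by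
        rw [hiN, pow_succ]
        ring
      rw [← e]
      exact hcoef _ hq t
    · intro _
      simp
  · have htay : ∀ b < m - 2 * i, (taylor 1 (ph f (-(i : ℤ)))).coeff b = 0 := by
      intro b hb
      rw [Htay]
      refine tc_zero hH (by omega) ?_
      have hb2 : b + (2 * i + 1) ≤ m := by omega
      have hb' : (2 : ℝ) * i + 1 ≤ (m : ℝ) - b := by
        have : ((b + (2 * i + 1) : ℕ) : ℝ) ≤ (m : ℝ) := by exact_mod_cast hb2
        push_cast at this
        linarith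
      have h5 := mul_le_mul_of_nonneg_left hb' (show (0 : ℝ) ≤ M + 1 - KG M by linarith)
      have h6 : 0 ≤ (i : ℝ) * (2 * M + 1 - 2 * KG M) :=
        mul_nonneg (Nat.cast_nonneg i) (by linarith)
      push_cast
      linarith
    obtain ⟨q, hq, hqd⟩ := factor hlow htay hdeg
    refine ⟨q, by omega, fun t _ => hcoef _ hq t, fun h => absurd h hiN⟩

include Hph Htay Hct Hcc hM hd1 hf hH in
lemma column {t : ℕ} (ht : t ≤ M) (hh : 2 * M ≤ h) :
    ∃ g : Polynomial ℚ, g.natDegree ≤ t - 1 ∧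
      ∀ i : ℕ, wc f (t : ℤ) (t + i) = ((1 + X) ^ (h - 2 * t) * g).coeff i := by
  obtain ⟨k1, k2, -, k4, -, -, -⟩ := bounds hM
  have hMr : (1 : ℝ) ≤ M := by exact_mod_cast hM
  have hpos : ∀ p ∈ f.support, 0 ≤ p.2 := fun p hp => (supp hM hf hp).1
  rcases Nat.eq_zero_or_pos t with h0 | h0
  · subst h0
    have hP : colp f ((0 : ℕ) : ℤ) = C (f (0, (h : ℤ))) * X ^ h := by
      ext j
      rw [Hcc f hpos, coeff_C_mul, coeff_X_pow]
      split_ifs with hj
      · rw [hj, mul_one]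
        rfl
      · rw [mul_zero]
        by_contra hne
        have hp : (((0 : ℕ) : ℤ), (j : ℤ)) ∈ f.support := Finsupp.mem_support_iff.2 hne
        obtain ⟨-, -, h3, h4, -⟩ := supp hM hf hp
        simp only [Nat.cast_zero, Int.cast_zero, Int.cast_natCast, Nat.cast_le] at h3 h4
        have h5 : (j : ℝ) < h := by
          have : j < h := by omega
          exact_mod_cast this
        have := mul_pos (show 0 < KG M - M by linarith) (sub_pos.2 h5)
        linarith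
    refine ⟨C (f (0, (h : ℤ))), by rw [natDegree_C], fun i => ?_⟩
    rw [← Hct, hP, taylor_mul, taylor_pow, taylor_C, taylor_X, zero_add, mul_zero, Nat.sub_zero,
      C_1, add_comm X, mul_comm]
  · have hlow : ∀ j < h - 2 * t, (colp f (t : ℤ)).coeff j = 0 := by
      intro j hj
      rw [Hcc f hpos]
      by_contra hne
      have hp : ((t : ℤ), (j : ℤ)) ∈ f.support := Finsupp.mem_support_iff.2 hne
      obtain ⟨-, -, h3, h4, -⟩ := supp hM hf hp
      simp only [Int.cast_natCast] at h4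
      have h5 : (2 : ℝ) * t + 1 ≤ (h : ℝ) - j := by
        have : j + (2 * t + 1) ≤ h := by omega
        have : ((j + (2 * t + 1) : ℕ) : ℝ) ≤ h := by exact_mod_cast this
        push_cast at this
        linarith
      have h6 : (t : ℝ) ≤ M := by exact_mod_cast ht
      have h7 := mul_le_mul_of_nonneg_left h5 (show 0 ≤ KG M - M by linarith)
      have h8 := mul_le_mul_of_nonneg_right h6 (show 0 ≤ 2 * M + 1 - 2 * KG M by linarith)
      linarith
    have hdeg : (colp f (t : ℤ)).natDegree ≤ h - 1 := by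
      rw [natDegree_le_iff_coeff_eq_zero]
      intro j hj
      rw [Hcc f hpos]
      by_contra hne
      have hp : ((t : ℤ), (j : ℤ)) ∈ f.support := Finsupp.mem_support_iff.2 hne
      obtain ⟨-, -, h3, -, h5⟩ := supp hM hf hp
      simp only [Int.cast_natCast] at h5
      have h6 : (h : ℝ) ≤ j := by
        have : h ≤ j := by omega
        exact_mod_cast this
      have h7 : (1 : ℝ) ≤ t := by exact_mod_cast h0
      have h8 := mul_nonpos_of_nonneg_of_nonpos (show 0 ≤ KG M by linarith)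
        (show (h : ℝ) - j ≤ 0 by linarith)
      linarith
    have htay : ∀ b < t, (taylor 1 (colp f (t : ℤ))).coeff b = 0 := by
      intro b hb
      rw [Hct]
      exact wc_low Hph Htay hM hd1 hf hH (by exact_mod_cast hb)
    obtain ⟨q, hq, hqd⟩ := factor hlow htay hdeg
    have hT : taylor 1 (colp f (t : ℤ)) =
        X ^ t * ((1 + X) ^ (h - 2 * t) * ((-1) ^ t * taylor 1 q)) := by
      rw [hq, taylor_mul, taylor_mul, taylor_pow, taylor_pow, taylor_X, map_sub, taylor_one,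
        taylor_X]
      have e : (C 1 - (X + C 1) : ℚ[X]) = -1 * X := by ring
      rw [e, mul_pow, C_1, add_comm X]
      ring
    refine ⟨(-1) ^ t * taylor 1 q, ?_, fun i => ?_⟩
    · have e : ((-1 : ℚ[X]) ^ t) = C ((-1) ^ t) := by
        rw [C_pow, C_neg, C_1]
      rw [e]
      refine (natDegree_C_mul_le _ _).trans ?_
      rw [natDegree_taylor]
      omega
    · rw [← Hct, hT, add_comm t i, coeff_X_pow_mul]

include Hph Htay Hct Hcc hM hd1 hf hH in
lemma column' (hh : 2 * M + 3 ≤ h) :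
    ∃ g : Polynomial ℚ, g.natDegree ≤ M ∧
      ∀ i : ℕ, wc f ((M + 1 : ℕ) : ℤ) (M + 1 + i) =
        ((1 + X) ^ (h - (2 * M + 3)) * g).coeff i := by
  obtain ⟨k1, k2, -, k4, -, -, k7⟩ := bounds hM
  have hMr : (1 : ℝ) ≤ M := by exact_mod_cast hM
  have hpos : ∀ p ∈ f.support, 0 ≤ p.2 := fun p hp => (supp hM hf hp).1
  have hlow : ∀ j < h - (2 * M + 3), (colp f ((M + 1 : ℕ) : ℤ)).coeff j = 0 := by
    intro j hj
    rw [Hcc f hpos]
    by_contra hne
    have hp : (((M + 1 : ℕ) : ℤ), (j : ℤ)) ∈ f.support := Finsupp.mem_support_iff.2 hne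
    obtain ⟨-, -, h3, h4, -⟩ := supp hM hf hp
    simp only [Int.cast_natCast] at h4
    push_cast at h4
    have h5 : (2 : ℝ) * M + 4 ≤ (h : ℝ) - j := by
      have : j + (2 * M + 4) ≤ h := by omega
      have : ((j + (2 * M + 4) : ℕ) : ℝ) ≤ h := by exact_mod_cast this
      push_cast at this
      linarith
    have h7 := mul_le_mul_of_nonneg_left h5 (show 0 ≤ KG M - M by linarith)
    linarith
  have hdeg : (colp f ((M + 1 : ℕ) : ℤ)).natDegree ≤ h - 2 := by
    rw [natDegree_le_iff_coeff_eq_zero]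
    intro j hj
    rw [Hcc f hpos]
    by_contra hne
    have hp : (((M + 1 : ℕ) : ℤ), (j : ℤ)) ∈ f.support := Finsupp.mem_support_iff.2 hne
    obtain ⟨-, -, h3, -, h5⟩ := supp hM hf hp
    simp only [Int.cast_natCast] at h5
    push_cast at h5
    have h6 : (h : ℝ) - j ≤ 1 := by
      have h61 : h ≤ j + 1 := by omega
      have : (h : ℝ) ≤ ((j + 1 : ℕ) : ℝ) := by exact_mod_cast h61
      push_cast at this
      linarith
    have h8 := mul_le_mul_of_nonneg_left h6 (show 0 ≤ KG M by linarith)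
    linarith
  have htay : ∀ b < M + 1, (taylor 1 (colp f ((M + 1 : ℕ) : ℤ))).coeff b = 0 := by
    intro b hb
    rw [Hct]
    exact wc_low Hph Htay hM hd1 hf hH (by exact_mod_cast hb)
  obtain ⟨q, hq, hqd⟩ := factor hlow htay hdeg
  have hT : taylor 1 (colp f ((M + 1 : ℕ) : ℤ)) =
      X ^ (M + 1) * ((1 + X) ^ (h - (2 * M + 3)) * ((-1) ^ (M + 1) * taylor 1 q)) := by
    rw [hq, taylor_mul, taylor_mul, taylor_pow, taylor_pow, taylor_X, map_sub, taylor_one,
      taylor_X]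
    have e : (C 1 - (X + C 1) : ℚ[X]) = -1 * X := by ring
    rw [e, mul_pow, C_1, add_comm X]
    ring
  refine ⟨(-1) ^ (M + 1) * taylor 1 q, ?_, fun i => ?_⟩
  · have e : ((-1 : ℚ[X]) ^ (M + 1)) = C ((-1) ^ (M + 1)) := by
      rw [C_pow, C_neg, C_1]
    rw [e]
    refine (natDegree_C_mul_le _ _).trans ?_
    rw [natDegree_taylor]
    omega
  · rw [← Hct, hT, add_comm (M + 1) i, coeff_X_pow_mul]

end

theorem apexzeroH (coreH : ∀ {M m h e : ℕ}, 1 ≤ M → M ≤ 9 → 5 ≤ e → h = m + e → M * e < m →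
      2 * m < (2 * M + 1) * e → ∀ b : ℕ → ℕ → ℚ,
      (∀ i ≤ M + 1, ∃ r : Polynomial ℚ, r.natDegree ≤ i ∧
        (∀ t ≤ M + 1, b t i = ((1 - X) ^ (m - 2 * i) * r).coeff t) ∧ (i = M + 1 → r.eval 1 = 0)) →
      (∀ t ≤ M, ∃ g : Polynomial ℚ, g.natDegree ≤ t - 1 ∧
        ∀ i ≤ M + 1, b t i = ((1 + X) ^ (h - 2 * t) * g).coeff i) →
      (∃ g : Polynomial ℚ, g.natDegree ≤ M ∧
        ∀ i ≤ M + 1, b (M + 1) i = ((1 + X) ^ (h - (2 * M + 3)) * g).coeff i) → b 0 0 = 0)
    {M h m : ℕ} (hM : 1 ≤ M) (hM9 : M ≤ 9)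
    (hd0 : (M : ℝ) * (2 * M + 1 - 2 * KG M) ≤ KG M * h - (KG M + 1) * m)
    (hd1 : KG M * h - (KG M + 1) * m < KG M - M)
    {f : (ℤ × ℤ) →₀ ℚ} (hf : (↑f.support : Set (ℤ × ℤ)) ⊆ ABG M h)
    (hH : ∀ b < m, ∀ c : ℤ, ⌊KG M * h - (KG M + 1) * (b : ℝ)⌋ < c + ((M : ℤ) + 2) * ((m : ℤ) - b) →
      tc f c b = 0) :
    f (0, (h : ℤ)) = 0 := by
  obtain ⟨k1, k2, k3, k4, k5, k6, k7⟩ := bounds hM
  have hMr : (1 : ℝ) ≤ M := by exact_mod_cast hM
  have hd1' : KG M * h - (KG M + 1) * m < 1 / 2 := hd1.trans (by linarith)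
  have heps : 0 < 2 * M + 1 - 2 * KG M := by linarith
  have hMe : 0 < (M : ℝ) * (2 * M + 1 - 2 * KG M) := mul_pos (by linarith) heps
  -- the number `e`
  have hm' : (0 : ℝ) ≤ m := Nat.cast_nonneg m
  have hhm : m < h := by
    by_contra hc
    push Not at hc
    have h1 : (h : ℝ) ≤ m := by exact_mod_cast hc
    have h2 := mul_le_mul_of_nonneg_left h1 (show 0 ≤ KG M by linarith)
    linarith
  obtain ⟨e, he⟩ : ∃ e, h = m + e := ⟨h - m, by omega⟩
  have heR : (h : ℝ) = m + e := by rw [he]; push_cast; ring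
  have he1 : 1 ≤ e := by omega
  have hKe1 : (m : ℝ) + M * (2 * M + 1 - 2 * KG M) ≤ KG M * e := by rw [heR] at hd0; linarith
  have hKe2 : KG M * e < m + (KG M - M) := by rw [heR] at hd1; linarith
  have he5 : 5 ≤ e := by
    by_contra hc
    have : e = 1 ∨ e = 2 ∨ e = 3 ∨ e = 4 := by omega
    rcases this with h1 | h1 | h1 | h1
    · rw [h1, Nat.cast_one, mul_one] at hKe1 hKe2
      have h2 : (m : ℝ) < M + 1 := by linarith
      have h3 : (M : ℝ) < m := by linarith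
      have h4 : m < M + 1 := by exact_mod_cast h2
      have h5 : M < m := by exact_mod_cast h3
      omega
    · rw [h1] at hKe1 hKe2
      push_cast at hKe1 hKe2
      have h2 : (m : ℝ) < 2 * M + 1 := by linarith
      have h3 : (2 * M : ℝ) < m := by linarith
      have h4 : m < 2 * M + 1 := by exact_mod_cast h2
      have h5 : 2 * M < m := by exact_mod_cast h3
      omega
    · rw [h1] at hKe1 hKe2
      push_cast at hKe1 hKe2
      have h2 : (m : ℝ) < 3 * M + 2 := by linarith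
      have h3 : (3 * M : ℝ) < m := by linarith
      have h4 : m < 3 * M + 2 := by exact_mod_cast h2
      have h5 : 3 * M < m := by exact_mod_cast h3
      have h6 : m = 3 * M + 1 := by omega
      rw [h6] at hKe1
      push_cast at hKe1
      linarith
    · rw [h1] at hKe1 hKe2
      push_cast at hKe1 hKe2
      have h2 : (m : ℝ) < 4 * M + 2 := by linarith
      have h3 : (4 * M + 1 : ℝ) < m := by linarith
      have h4 : m < 4 * M + 2 := by exact_mod_cast h2
      have h5 : 4 * M + 1 < m := by exact_mod_cast h3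
      omega
  have he5' : (5 : ℝ) ≤ e := by exact_mod_cast he5
  have hm1 : M * e < m := by
    have : ((M * e : ℕ) : ℝ) < m := by
      push_cast
      have h1 := mul_le_mul_of_nonneg_left he5' (show 0 ≤ KG M - M by linarith)
      linarith
    exact_mod_cast this
  have hm2 : 2 * m < (2 * M + 1) * e := by
    have : ((2 * m : ℕ) : ℝ) < (((2 * M + 1) * e : ℕ) : ℝ) := by
      push_cast
      have h1 := mul_le_mul_of_nonneg_right (show KG M ≤ M + 1 / 2 by linarith)
        (show (0 : ℝ) ≤ e by linarith)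
      linarith
    exact_mod_cast this
  have hm3 : 2 * M + 2 ≤ m := by nlinarith
  have key := coreH hM hM9 he5 he hm1 hm2 (fun t i => wc f (t : ℤ) (t + i))
    (fun i hi => row ph_coeff ph_taylor hM hf hH hd1 le_rfl (by omega)
      (by push_cast; exact hd1.trans k5) hm3 hi)
    (fun t ht => by
      obtain ⟨g, hg1, hg2⟩ := column ph_coeff ph_taylor colp_taylor colp_coeff hM hd1' hf hH
        (t := t) ht (by omega)
      exact ⟨g, hg1, fun i _ => hg2 i⟩)
    (by
      obtain ⟨g, hg1, hg2⟩ := column' ph_coeff ph_taylor colp_taylor colp_coeff hM hd1' hf hH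
        (by omega)
      exact ⟨g, hg1, fun i _ => hg2 i⟩)
  -- the value at the apex
  have hpos : ∀ p ∈ f.support, 0 ≤ p.2 := fun p hp => (supp hM hf hp).1
  have hcol : colp f ((0 : ℕ) : ℤ) = C (f (0, (h : ℤ))) * X ^ h := by
    ext j
    rw [colp_coeff f hpos, coeff_C_mul, coeff_X_pow]
    split_ifs with hj
    · rw [hj, mul_one]
      rfl
    · rw [mul_zero]
      by_contra hne
      have hp : (((0 : ℕ) : ℤ), (j : ℤ)) ∈ f.support := Finsupp.mem_support_iff.2 hne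
      obtain ⟨-, -, h3, h4, -⟩ := supp hM hf hp
      simp only [Nat.cast_zero, Int.cast_zero, Int.cast_natCast, Nat.cast_le] at h3 h4
      have h5 : (j : ℝ) < h := by
        have : j < h := by omega
        exact_mod_cast this
      have := mul_pos (show 0 < KG M - M by linarith) (sub_pos.2 h5)
      linarith
  have h9 := colp_taylor f ((0 : ℕ) : ℤ) 0
  simp only [add_zero] at key
  rw [key, hcol, taylor_coeff_zero] at h9
  simpa using h9

end Pool.Agent.E8helper79.AX.B3H
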