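import Mathlib

/-! # AX piece C2: the solution from the powers of two polynomials. -/

set_option autoImplicit false

open Polynomial

namespace Pool.Agent.E8helper79.AX

/-- Cauchy product -/
noncomputable def cp {R : Type} [Semiring R] (a b : ℕ → R) (n : ℕ) : R :=
  ∑ x ∈ Finset.HasAntidiagonal.antidiagonal n, a x.1 * b x.2

/-- the two structures -/
structure Good (m h k : ℕ) (a a' : ℕ → ℚ[X]) : Prop where
  rel : ∀ i ≤ 9, ∀ t ≤ 9, (a i).coeff t = (a' t).coeff i
  s1 : ∃ c : ℕ → ℚ, (∀ i ≤ 9, 0 ≤ c i) ∧ (∀ i ≤ 9, i ≤ 4 * k → 0 < c i) ∧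
    ∀ i ≤ 9, ∃ ρ : ℚ[X], ρ.natDegree ≤ i ∧ (1 - X) ^ (2 * i) * a i = (1 - X) ^ m * ρ ∧
      ρ.eval 1 = c i
  s2 : ∀ t ≤ 9, ∃ g : ℚ[X], g.natDegree ≤ t - 1 ∧
    (1 + X) ^ (2 * t) * a' t = (1 + X) ^ h * g

theorem ad {n : ℕ} {x : ℕ × ℕ} (h : x ∈ Finset.HasAntidiagonal.antidiagonal n) : x.1 + x.2 = n :=
  Finset.HasAntidiagonal.mem_antidiagonal.1 h

/-- the identity for products -/
theorem cp_id {u : ℚ[X]} {m₁ m₂ : ℕ} {a b ρ₁ ρ₂ : ℕ → ℚ[X]} {i : ℕ} (hi : i ≤ 9)
    (h1 : ∀ i ≤ 9, u ^ (2 * i) * a i = u ^ m₁ * ρ₁ i)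
    (h2 : ∀ i ≤ 9, u ^ (2 * i) * b i = u ^ m₂ * ρ₂ i) :
    u ^ (2 * i) * cp a b i = u ^ (m₁ + m₂) * cp ρ₁ ρ₂ i := by
  unfold cp
  rw [Finset.mul_sum, Finset.mul_sum]
  refine Finset.sum_congr rfl fun x hx => ?_
  have hx' := ad hx
  have e1 := h1 x.1 (by omega)
  have e2 := h2 x.2 (by omega)
  calc u ^ (2 * i) * (a x.1 * b x.2) = (u ^ (2 * x.1) * a x.1) * (u ^ (2 * x.2) * b x.2) := by
        rw [← hx']
        ring
    _ = _ := by
        rw [e1, e2]
        ring

theorem Good.mul {m₁ h₁ k₁ m₂ h₂ : ℕ} {a a' b b' : ℕ → ℚ[X]} (G : Good m₁ h₁ k₁ a a')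
    (H : Good m₂ h₂ 1 b b') : Good (m₁ + m₂) (h₁ + h₂) (k₁ + 1) (cp a b) (cp a' b') := by
  refine ⟨?_, ?_, ?_⟩
  · intro i hi t ht
    unfold cp
    rw [Polynomial.finsetSum_coeff, Polynomial.finsetSum_coeff]
    have e1 : ∀ x ∈ Finset.HasAntidiagonal.antidiagonal i, (a x.1 * b x.2).coeff t =
        ∑ y ∈ Finset.HasAntidiagonal.antidiagonal t, (a' y.1).coeff x.1 * (b' y.2).coeff x.2 := by
      intro x hx
      rw [Polynomial.coeff_mul]
      refine Finset.sum_congr rfl fun y hy => ?_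
      have hx' := ad hx
      have hy' := ad hy
      rw [G.rel x.1 (by omega) y.1 (by omega), H.rel x.2 (by omega) y.2 (by omega)]
    have e2 : ∀ y ∈ Finset.HasAntidiagonal.antidiagonal t, (a' y.1 * b' y.2).coeff i =
        ∑ x ∈ Finset.HasAntidiagonal.antidiagonal i, (a' y.1).coeff x.1 * (b' y.2).coeff x.2 :=
      fun y _ => Polynomial.coeff_mul _ _ _
    rw [Finset.sum_congr rfl e1, Finset.sum_congr rfl e2, Finset.sum_comm]
  · obtain ⟨c₁, hc₁, hc₁', hr₁⟩ := G.s1
    obtain ⟨c₂, hc₂, hc₂', hr₂⟩ := H.s1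
    choose! ρ₁ hd₁ he₁ hv₁ using hr₁
    choose! ρ₂ hd₂ he₂ hv₂ using hr₂
    refine ⟨cp c₁ c₂, ?_, ?_, ?_⟩
    · intro i hi
      refine Finset.sum_nonneg fun x hx => ?_
      have hx' := ad hx
      exact mul_nonneg (hc₁ _ (by omega)) (hc₂ _ (by omega))
    · intro i hi hik
      refine Finset.sum_pos' (fun x hx => ?_) ⟨(min i (4 * k₁), i - min i (4 * k₁)), ?_, ?_⟩
      · have hx' := ad hx
        exact mul_nonneg (hc₁ _ (by omega)) (hc₂ _ (by omega))
      · rw [Finset.HasAntidiagonal.mem_antidiagonal]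
        simp only
        omega
      · exact mul_pos (hc₁' _ (by omega) (by omega)) (hc₂' _ (by omega) (by omega))
    · intro i hi
      refine ⟨cp ρ₁ ρ₂ i, ?_, cp_id hi he₁ he₂, ?_⟩
      · refine Polynomial.natDegree_sum_le_of_forall_le _ _ fun x hx => ?_
        have hx' := ad hx
        have d1 := hd₁ x.1 (by omega)
        have d2 := hd₂ x.2 (by omega)
        exact (Polynomial.natDegree_mul_le).trans (by omega)
      · unfold cp
        rw [Polynomial.eval_finsetSum]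
        refine Finset.sum_congr rfl fun x hx => ?_
        have hx' := ad hx
        rw [Polynomial.eval_mul, hv₁ x.1 (by omega), hv₂ x.2 (by omega)]
  · have hr₁ := G.s2
    have hr₂ := H.s2
    choose! g₁ hd₁ he₁ using hr₁
    choose! g₂ hd₂ he₂ using hr₂
    intro t ht
    refine ⟨cp g₁ g₂ t, ?_, cp_id ht he₁ he₂⟩
    refine Polynomial.natDegree_sum_le_of_forall_le _ _ fun x hx => ?_
    have hx' := ad hx
    have d1 := hd₁ x.1 (by omega)
    have d2 := hd₂ x.2 (by omega)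
    exact (Polynomial.natDegree_mul_le).trans (by omega)

/-- the unit -/
noncomputable def un (i : ℕ) : ℚ[X] := if i = 0 then 1 else 0

theorem good_un : Good 0 0 0 un un := by
  refine ⟨?_, ⟨fun i => if i = 0 then 1 else 0, ?_, ?_, ?_⟩, ?_⟩
  · intro i _ t _
    unfold un
    by_cases hi : i = 0
    · by_cases ht : t = 0
      · rw [hi, ht]
      · rw [if_pos hi, if_neg ht, Polynomial.coeff_one, if_neg ht, Polynomial.coeff_zero]
    · by_cases ht : t = 0
      · rw [if_neg hi, if_pos ht, Polynomial.coeff_one, if_neg hi, Polynomial.coeff_zero]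
      · rw [if_neg hi, if_neg ht, Polynomial.coeff_zero, Polynomial.coeff_zero]
  · intro i _
    simp only
    split_ifs <;> norm_num
  · intro i _ hi
    have : i = 0 := by omega
    rw [this]
    norm_num
  · intro i _
    refine ⟨un i, ?_, ?_, ?_⟩
    · unfold un
      split_ifs
      · rw [Polynomial.natDegree_one]; omega
      · rw [Polynomial.natDegree_zero]; omega
    · unfold un
      split_ifs with h
      · rw [h]
      · rw [mul_zero, mul_zero]
    · unfold un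
      by_cases h : i = 0
      · simp only [h, if_true, Polynomial.eval_one]
      · simp only [h, if_false, Polynomial.eval_zero]
  · intro t _
    refine ⟨un t, ?_, ?_⟩
    · unfold un
      split_ifs
      · rw [Polynomial.natDegree_one]; omega
      · rw [Polynomial.natDegree_zero]; omega
    · unfold un
      split_ifs with h
      · rw [h]
      · rw [mul_zero, mul_zero]

/-- the coefficients -/
def B (m t i : ℕ) : ℤ := (-1) ^ t * (m - i).choose t * (m + 1 - t).choose i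

noncomputable def PA (m i : ℕ) : ℚ[X] := ∑ t ∈ Finset.range 12, ((B m t i : ℤ) : ℚ[X]) * X ^ t
noncomputable def PB (m t : ℕ) : ℚ[X] := ∑ i ∈ Finset.range 12, ((B m t i : ℤ) : ℚ[X]) * X ^ i

theorem coeff_aux (f : ℕ → ℤ) (t : ℕ) (ht : t ≤ 9) :
    (∑ s ∈ Finset.range 12, ((f s : ℤ) : ℚ[X]) * X ^ s).coeff t = (f t : ℚ) := by
  rw [Polynomial.finsetSum_coeff]
  rw [Finset.sum_eq_single t]
  · rw [← map_intCast (C : ℚ →+* ℚ[X]), Polynomial.coeff_C_mul_X_pow, if_pos rfl]
  · intro s _ hs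
    rw [← map_intCast (C : ℚ →+* ℚ[X]), Polynomial.coeff_C_mul_X_pow, if_neg hs.symm]
  · intro h
    exact absurd (Finset.mem_range.2 (by omega)) h

theorem deg_aux (f : ℕ → ℤ) (n : ℕ) (hf : ∀ s, n < s → f s = 0) :
    (∑ s ∈ Finset.range 12, ((f s : ℤ) : ℚ[X]) * X ^ s).natDegree ≤ n := by
  refine Polynomial.natDegree_sum_le_of_forall_le _ _ fun s _ => ?_
  by_cases h : n < s
  · rw [hf s h, Int.cast_zero, zero_mul, Polynomial.natDegree_zero]
    omega
  · rw [← map_intCast (C : ℚ →+* ℚ[X])]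
    exact (Polynomial.natDegree_C_mul_X_pow_le _ _).trans (not_lt.1 h)

theorem relP (m : ℕ) : ∀ i ≤ 9, ∀ t ≤ 9, (PA m i).coeff t = (PB m t).coeff i := by
  intro i hi t ht
  unfold PA PB
  rw [coeff_aux (fun t => B m t i) t ht, coeff_aux (fun i => B m t i) i hi]

theorem degA (m i : ℕ) : (PA m i).natDegree ≤ m - i := by
  refine deg_aux (fun t => B m t i) (m - i) fun s hs => ?_
  unfold B
  rw [Nat.choose_eq_zero_of_lt hs]
  simp

theorem degB {m t : ℕ} (ht : 1 ≤ t) : (PB m t).natDegree ≤ m - t := by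
  refine deg_aux (fun i => B m t i) (m - t) fun s hs => ?_
  unfold B
  rw [Nat.choose_eq_zero_of_lt (show m - s < t by omega)]
  simp

theorem degu (k : ℕ) : ((1 - X : ℚ[X]) ^ k).natDegree ≤ k := by
  refine (Polynomial.natDegree_pow_le).trans ?_
  have : (1 - X : ℚ[X]).natDegree ≤ 1 := by compute_degree
  calc k * (1 - X : ℚ[X]).natDegree ≤ k * 1 := Nat.mul_le_mul_left k this
    _ = k := mul_one k

theorem degv (k : ℕ) : ((1 + X : ℚ[X]) ^ k).natDegree ≤ k := by
  refine (Polynomial.natDegree_pow_le).trans ?_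
  have : (1 + X : ℚ[X]).natDegree ≤ 1 := by compute_degree
  calc k * (1 + X : ℚ[X]).natDegree ≤ k * 1 := Nat.mul_le_mul_left k this
    _ = k := mul_one k

theorem highA {m i : ℕ} (h : m < 2 * i) (hi : i ≤ m) : ∃ ρ : ℚ[X], ρ.natDegree ≤ i ∧
    (1 - X) ^ (2 * i) * PA m i = (1 - X) ^ m * ρ ∧ ρ.eval 1 = 0 := by
  refine ⟨(1 - X) ^ (2 * i - m) * PA m i, ?_, ?_, ?_⟩
  · have h1 := degA m i
    have h2 := degu (2 * i - m)
    exact (Polynomial.natDegree_mul_le).trans (by omega)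
  · rw [← mul_assoc, ← pow_add]
    congr 2
    omega
  · rw [Polynomial.eval_mul, Polynomial.eval_pow, Polynomial.eval_sub, Polynomial.eval_one,
      Polynomial.eval_X, sub_self, zero_pow (by omega), zero_mul]

theorem highB {m t : ℕ} (h : m + 1 < 2 * t) (ht : t ≤ m) : ∃ g : ℚ[X], g.natDegree ≤ t - 1 ∧
    (1 + X) ^ (2 * t) * PB m t = (1 + X) ^ (m + 1) * g := by
  refine ⟨(1 + X) ^ (2 * t - (m + 1)) * PB m t, ?_, ?_⟩
  · have h1 := degB (m := m) (t := t) (by omega)
    have h2 := degv (2 * t - (m + 1))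
    exact (Polynomial.natDegree_mul_le).trans (by omega)
  · rw [← mul_assoc, ← pow_add]
    congr 2
    omega

theorem lowA {m i : ℕ} {ρ : ℚ[X]} {c : ℚ} (h : 2 * i ≤ m) (hd : ρ.natDegree ≤ i)
    (he : PA m i = (1 - X) ^ (m - 2 * i) * ρ) (hv : ρ.eval 1 = c) :
    ∃ ρ : ℚ[X], ρ.natDegree ≤ i ∧
      (1 - X) ^ (2 * i) * PA m i = (1 - X) ^ m * ρ ∧ ρ.eval 1 = c := by
  refine ⟨ρ, hd, ?_, hv⟩
  rw [he, ← mul_assoc, ← pow_add]
  congr 2
  omega

theorem lowB {m h t : ℕ} {g : ℚ[X]} (ht : 2 * t ≤ h) (hd : g.natDegree ≤ t - 1)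
    (he : PB m t = (1 + X) ^ (h - 2 * t) * g) :
    ∃ g : ℚ[X], g.natDegree ≤ t - 1 ∧ (1 + X) ^ (2 * t) * PB m t = (1 + X) ^ h * g := by
  refine ⟨g, hd, ?_⟩
  rw [he, ← mul_assoc, ← pow_add]
  congr 2
  omega

theorem pA9_0 : PA 9 0 = (1 - X) ^ 9 * (1) := by
  unfold PA
  simp only [Finset.sum_range_succ, Finset.sum_range_zero, B]
  norm_num [Nat.choose]
  try ring

theorem pA9_1 : PA 9 1 = (1 - X) ^ 7 * (10 - 2 * X) := by
  unfold PA
  simp only [Finset.sum_range_succ, Finset.sum_range_zero, B]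
  norm_num [Nat.choose]
  try ring

theorem pA9_2 : PA 9 2 = (1 - X) ^ 5 * (45 - 27 * X + 3 * X ^ 2) := by
  unfold PA
  simp only [Finset.sum_range_succ, Finset.sum_range_zero, B]
  norm_num [Nat.choose]
  try ring

theorem pA9_3 : PA 9 3 = (1 - X) ^ 3 * (120 - 144 * X + 48 * X ^ 2 - 4 * X ^ 3) := by
  unfold PA
  simp only [Finset.sum_range_succ, Finset.sum_range_zero, B]
  norm_num [Nat.choose]
  try ring

theorem pA9_4 : PA 9 4 = (1 - X) ^ 1 * (210 - 420 * X + 280 * X ^ 2 - 70 * X ^ 3 + 5 * X ^ 4) := by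
  unfold PA
  simp only [Finset.sum_range_succ, Finset.sum_range_zero, B]
  norm_num [Nat.choose]
  try ring

theorem pA10_0 : PA 10 0 = (1 - X) ^ 10 * (1) := by
  unfold PA
  simp only [Finset.sum_range_succ, Finset.sum_range_zero, B]
  norm_num [Nat.choose]
  try ring

theorem pA10_1 : PA 10 1 = (1 - X) ^ 8 * (11 - 2 * X) := by
  unfold PA
  simp only [Finset.sum_range_succ, Finset.sum_range_zero, B]
  norm_num [Nat.choose]
  try ring

theorem pA10_2 : PA 10 2 = (1 - X) ^ 6 * (55 - 30 * X + 3 * X ^ 2) := by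
  unfold PA
  simp only [Finset.sum_range_succ, Finset.sum_range_zero, B]
  norm_num [Nat.choose]
  try ring

theorem pA10_3 : PA 10 3 = (1 - X) ^ 4 * (165 - 180 * X + 54 * X ^ 2 - 4 * X ^ 3) := by
  unfold PA
  simp only [Finset.sum_range_succ, Finset.sum_range_zero, B]
  norm_num [Nat.choose]
  try ring

theorem pA10_4 : PA 10 4 = (1 - X) ^ 2 * (330 - 600 * X + 360 * X ^ 2 - 80 * X ^ 3 + 5 * X ^ 4) := by
  unfold PA
  simp only [Finset.sum_range_succ, Finset.sum_range_zero, B]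
  norm_num [Nat.choose]
  try ring

theorem pA10_5 : PA 10 5 = (1 - X) ^ 0 * (462 - 1260 * X + 1260 * X ^ 2 - 560 * X ^ 3 + 105 * X ^ 4 - 6 * X ^ 5) := by
  unfold PA
  simp only [Finset.sum_range_succ, Finset.sum_range_zero, B]
  norm_num [Nat.choose]
  try ring

theorem pB9_0 : PB 9 0 = (1 + X) ^ 10 * (1) := by
  unfold PB
  simp only [Finset.sum_range_succ, Finset.sum_range_zero, B]
  norm_num [Nat.choose]
  try ring

theorem pB9_1 : PB 9 1 = (1 + X) ^ 8 * (-9) := by
  unfold PB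
  simp only [Finset.sum_range_succ, Finset.sum_range_zero, B]
  norm_num [Nat.choose]
  try ring

theorem pB9_2 : PB 9 2 = (1 + X) ^ 6 * (36 + 8 * X) := by
  unfold PB
  simp only [Finset.sum_range_succ, Finset.sum_range_zero, B]
  norm_num [Nat.choose]
  try ring

theorem pB9_3 : PB 9 3 = (1 + X) ^ 4 * (-84 - 56 * X - 7 * X ^ 2) := by
  unfold PB
  simp only [Finset.sum_range_succ, Finset.sum_range_zero, B]
  norm_num [Nat.choose]
  try ring

theorem pB9_4 : PB 9 4 = (1 + X) ^ 2 * (126 + 168 * X + 63 * X ^ 2 + 6 * X ^ 3) := by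
  unfold PB
  simp only [Finset.sum_range_succ, Finset.sum_range_zero, B]
  norm_num [Nat.choose]
  try ring

theorem pB9_5 : PB 9 5 = (1 + X) ^ 0 * (-126 - 280 * X - 210 * X ^ 2 - 60 * X ^ 3 - 5 * X ^ 4) := by
  unfold PB
  simp only [Finset.sum_range_succ, Finset.sum_range_zero, B]
  norm_num [Nat.choose]
  try ring

theorem pB10_0 : PB 10 0 = (1 + X) ^ 11 * (1) := by
  unfold PB
  simp only [Finset.sum_range_succ, Finset.sum_range_zero, B]
  norm_num [Nat.choose]
  try ring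

theorem pB10_1 : PB 10 1 = (1 + X) ^ 9 * (-10) := by
  unfold PB
  simp only [Finset.sum_range_succ, Finset.sum_range_zero, B]
  norm_num [Nat.choose]
  try ring

theorem pB10_2 : PB 10 2 = (1 + X) ^ 7 * (45 + 9 * X) := by
  unfold PB
  simp only [Finset.sum_range_succ, Finset.sum_range_zero, B]
  norm_num [Nat.choose]
  try ring

theorem pB10_3 : PB 10 3 = (1 + X) ^ 5 * (-120 - 72 * X - 8 * X ^ 2) := by
  unfold PB
  simp only [Finset.sum_range_succ, Finset.sum_range_zero, B]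
  norm_num [Nat.choose]
  try ring

theorem pB10_4 : PB 10 4 = (1 + X) ^ 3 * (210 + 252 * X + 84 * X ^ 2 + 7 * X ^ 3) := by
  unfold PB
  simp only [Finset.sum_range_succ, Finset.sum_range_zero, B]
  norm_num [Nat.choose]
  try ring

theorem pB10_5 : PB 10 5 = (1 + X) ^ 1 * (-252 - 504 * X - 336 * X ^ 2 - 84 * X ^ 3 - 6 * X ^ 4) := by
  unfold PB
  simp only [Finset.sum_range_succ, Finset.sum_range_zero, B]
  norm_num [Nat.choose]
  try ring

/-- the values at `1` -/
def cP (i : ℕ) : ℚ := ([1, 8, 21, 20, 5] : List ℚ).getD i 0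

theorem good_P : Good 9 10 1 (PA 9) (PB 9) := by
  refine ⟨relP 9, ⟨cP, ?_, ?_, ?_⟩, ?_⟩
  · intro i hi
    interval_cases i <;> norm_num [cP]
  · intro i hi hi4
    have : i ≤ 4 := by omega
    interval_cases i <;> norm_num [cP]
  · intro i hi
    interval_cases i
    · exact lowA (ρ := 1) (by norm_num) (by compute_degree) pA9_0 (by norm_num [cP])
    · exact lowA (ρ := 10 - 2 * X) (by norm_num) (by compute_degree) pA9_1 (by norm_num [cP])
    · exact lowA (ρ := 45 - 27 * X + 3 * X ^ 2) (by norm_num) (by compute_degree) pA9_2 (by norm_num [cP])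
    · exact lowA (ρ := 120 - 144 * X + 48 * X ^ 2 - 4 * X ^ 3) (by norm_num) (by compute_degree) pA9_3 (by norm_num [cP])
    · exact lowA (ρ := 210 - 420 * X + 280 * X ^ 2 - 70 * X ^ 3 + 5 * X ^ 4) (by norm_num) (by compute_degree) pA9_4 (by norm_num [cP])
    · obtain ⟨ρ, h1, h2, h3⟩ := highA (m := 9) (i := 5) (by norm_num) (by norm_num)
      exact ⟨ρ, h1, h2, h3.trans (by norm_num [cP])⟩
    · obtain ⟨ρ, h1, h2, h3⟩ := highA (m := 9) (i := 6) (by norm_num) (by norm_num)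
      exact ⟨ρ, h1, h2, h3.trans (by norm_num [cP])⟩
    · obtain ⟨ρ, h1, h2, h3⟩ := highA (m := 9) (i := 7) (by norm_num) (by norm_num)
      exact ⟨ρ, h1, h2, h3.trans (by norm_num [cP])⟩
    · obtain ⟨ρ, h1, h2, h3⟩ := highA (m := 9) (i := 8) (by norm_num) (by norm_num)
      exact ⟨ρ, h1, h2, h3.trans (by norm_num [cP])⟩
    · obtain ⟨ρ, h1, h2, h3⟩ := highA (m := 9) (i := 9) (by norm_num) (by norm_num)
      exact ⟨ρ, h1, h2, h3.trans (by norm_num [cP])⟩
  · intro t ht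
    interval_cases t
    · exact lowB (g := 1) (by norm_num) (by compute_degree) pB9_0
    · exact lowB (g := -9) (by norm_num) (by compute_degree) pB9_1
    · exact lowB (g := 36 + 8 * X) (by norm_num) (by compute_degree) pB9_2
    · exact lowB (g := -84 - 56 * X - 7 * X ^ 2) (by norm_num) (by compute_degree) pB9_3
    · exact lowB (g := 126 + 168 * X + 63 * X ^ 2 + 6 * X ^ 3) (by norm_num) (by compute_degree) pB9_4
    · exact lowB (g := -126 - 280 * X - 210 * X ^ 2 - 60 * X ^ 3 - 5 * X ^ 4) (by norm_num) (by compute_degree) pB9_5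
    · exact highB (m := 9) (t := 6) (by norm_num) (by norm_num)
    · exact highB (m := 9) (t := 7) (by norm_num) (by norm_num)
    · exact highB (m := 9) (t := 8) (by norm_num) (by norm_num)
    · exact highB (m := 9) (t := 9) (by norm_num) (by norm_num)

/-- the values at `1` -/
def cQ (i : ℕ) : ℚ := ([1, 9, 28, 35, 15, 1] : List ℚ).getD i 0

theorem good_Q : Good 10 11 1 (PA 10) (PB 10) := by
  refine ⟨relP 10, ⟨cQ, ?_, ?_, ?_⟩, ?_⟩
  · intro i hi
    interval_cases i <;> norm_num [cQ]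
  · intro i hi hi4
    have : i ≤ 4 := by omega
    interval_cases i <;> norm_num [cQ]
  · intro i hi
    interval_cases i
    · exact lowA (ρ := 1) (by norm_num) (by compute_degree) pA10_0 (by norm_num [cQ])
    · exact lowA (ρ := 11 - 2 * X) (by norm_num) (by compute_degree) pA10_1 (by norm_num [cQ])
    · exact lowA (ρ := 55 - 30 * X + 3 * X ^ 2) (by norm_num) (by compute_degree) pA10_2 (by norm_num [cQ])
    · exact lowA (ρ := 165 - 180 * X + 54 * X ^ 2 - 4 * X ^ 3) (by norm_num) (by compute_degree) pA10_3 (by norm_num [cQ])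
    · exact lowA (ρ := 330 - 600 * X + 360 * X ^ 2 - 80 * X ^ 3 + 5 * X ^ 4) (by norm_num) (by compute_degree) pA10_4 (by norm_num [cQ])
    · exact lowA (ρ := 462 - 1260 * X + 1260 * X ^ 2 - 560 * X ^ 3 + 105 * X ^ 4 - 6 * X ^ 5) (by norm_num) (by compute_degree) pA10_5 (by norm_num [cQ])
    · obtain ⟨ρ, h1, h2, h3⟩ := highA (m := 10) (i := 6) (by norm_num) (by norm_num)
      exact ⟨ρ, h1, h2, h3.trans (by norm_num [cQ])⟩
    · obtain ⟨ρ, h1, h2, h3⟩ := highA (m := 10) (i := 7) (by norm_num) (by norm_num)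
      exact ⟨ρ, h1, h2, h3.trans (by norm_num [cQ])⟩
    · obtain ⟨ρ, h1, h2, h3⟩ := highA (m := 10) (i := 8) (by norm_num) (by norm_num)
      exact ⟨ρ, h1, h2, h3.trans (by norm_num [cQ])⟩
    · obtain ⟨ρ, h1, h2, h3⟩ := highA (m := 10) (i := 9) (by norm_num) (by norm_num)
      exact ⟨ρ, h1, h2, h3.trans (by norm_num [cQ])⟩
  · intro t ht
    interval_cases t
    · exact lowB (g := 1) (by norm_num) (by compute_degree) pB10_0
    · exact lowB (g := -10) (by norm_num) (by compute_degree) pB10_1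
    · exact lowB (g := 45 + 9 * X) (by norm_num) (by compute_degree) pB10_2
    · exact lowB (g := -120 - 72 * X - 8 * X ^ 2) (by norm_num) (by compute_degree) pB10_3
    · exact lowB (g := 210 + 252 * X + 84 * X ^ 2 + 7 * X ^ 3) (by norm_num) (by compute_degree) pB10_4
    · exact lowB (g := -252 - 504 * X - 336 * X ^ 2 - 84 * X ^ 3 - 6 * X ^ 4) (by norm_num) (by compute_degree) pB10_5
    · exact highB (m := 10) (t := 6) (by norm_num) (by norm_num)
    · exact highB (m := 10) (t := 7) (by norm_num) (by norm_num)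
    · exact highB (m := 10) (t := 8) (by norm_num) (by norm_num)
    · exact highB (m := 10) (t := 9) (by norm_num) (by norm_num)

theorem good_all (x y : ℕ) : ∃ a a' : ℕ → ℚ[X], Good (9 * x + 10 * y) (10 * x + 11 * y) (x + y) a a' := by
  induction y with
  | zero =>
    induction x with
    | zero => exact ⟨un, un, good_un⟩
    | succ x ih =>
      obtain ⟨a, a', G⟩ := ih
      refine ⟨cp a (PA 9), cp a' (PB 9), ?_⟩
      have := G.mul good_P
      have e1 : 9 * (x + 1) + 10 * 0 = 9 * x + 10 * 0 + 9 := by ring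
      have e2 : 10 * (x + 1) + 11 * 0 = 10 * x + 11 * 0 + 10 := by ring
      have e3 : x + 1 + 0 = x + 0 + 1 := by ring
      rw [e1, e2, e3]
      exact this
  | succ y ih =>
    obtain ⟨a, a', G⟩ := ih
    refine ⟨cp a (PA 10), cp a' (PB 10), ?_⟩
    have := G.mul good_Q
    have e1 : 9 * x + 10 * (y + 1) = 9 * x + 10 * y + 10 := by ring
    have e2 : 10 * x + 11 * (y + 1) = 10 * x + 11 * y + 11 := by ring
    have e3 : x + (y + 1) = x + y + 1 := by ring
    rw [e1, e2, e3]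
    exact this

theorem exists_sol {m h e N : ℕ} (he : 3 ≤ e) (hh : h = m + e) (hm1 : 9 * e ≤ m) (hm2 : m ≤ 10 * e)
    (hN : N ≤ 9) (hN1 : 1 ≤ N) : ∃ b : ℕ → ℕ → ℚ,
    (∀ i ≤ N, ∃ r : ℚ[X], r.natDegree ≤ i ∧
      (∀ t ≤ N, b t i = ((1 - X) ^ (m - 2 * i) * r).coeff t) ∧ (i = N → r.eval 1 ≠ 0)) ∧
    (∀ t ≤ N, ∃ g : ℚ[X], g.natDegree ≤ t - 1 ∧
      ∀ i ≤ N, b t i = ((1 + X) ^ (h - 2 * t) * g).coeff i) := by
  obtain ⟨a, a', G⟩ := good_all (10 * e - m) (m - 9 * e)
  have e1 : 9 * (10 * e - m) + 10 * (m - 9 * e) = m := by omega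
  have e2 : 10 * (10 * e - m) + 11 * (m - 9 * e) = h := by omega
  have e3 : 10 * e - m + (m - 9 * e) = e := by omega
  rw [e1, e2, e3] at G
  obtain ⟨c, -, hc, hr⟩ := G.s1
  have hu : (1 - X : ℚ[X]) ≠ 0 := by
    intro h0
    have := congrArg (Polynomial.eval 0) h0
    simp at this
  have hv : (1 + X : ℚ[X]) ≠ 0 := by
    intro h0
    have := congrArg (Polynomial.eval 0) h0
    simp at this
  refine ⟨fun t i => (a i).coeff t, ?_, ?_⟩
  · intro i hi
    obtain ⟨ρ, h1, h2, h3⟩ := hr i (by omega)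
    have h4 : a i = (1 - X) ^ (m - 2 * i) * ρ := by
      apply mul_left_cancel₀ (pow_ne_zero (2 * i) hu)
      rw [h2, ← mul_assoc, ← pow_add]
      congr 2
      omega
    refine ⟨ρ, h1, fun t _ => ?_, fun hiN => ?_⟩
    · show (a i).coeff t = _
      rw [h4]
    rw [h3]
    exact (hc i (by omega) (by omega)).ne'
  · intro t ht
    obtain ⟨g, h1, h2⟩ := G.s2 t (by omega)
    have h4 : a' t = (1 + X) ^ (h - 2 * t) * g := by
      apply mul_left_cancel₀ (pow_ne_zero (2 * t) hv)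
      rw [h2, ← mul_assoc, ← pow_add]
      congr 2
      omega
    refine ⟨g, h1, fun i hi => ?_⟩
    rw [← h4]
    exact G.rel i (by omega) t (by omega)

end Pool.Agent.E8helper79.AX
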